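import Pool.Agent.V11118.KZ.Bool

/-!
# MP_0b1547_co, Q2: a Koszul Chow ring whose Hilbert series has a non-real zero

The matroid is the Boolean (free) matroid on seven elements, with a building set of eighteen flats.
The Chow ring is Koszul and its Hilbert series is `1 + 11x + 39x² + 59x³ + 39x⁴ + 11x⁵ + x⁶`,
which has non-real zeros.
-/

namespace Pool.Agent.Results.MP_0b1547_co.KoszulNotRealRooted

open MvPolynomial

noncomputable section

variable {α ι : Type}

/-- The interval `[∅, G]` of the lattice of flats of `M`: the flats contained in `G`. -/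
abbrev Below (M : Matroid α) (G : Set α) : Type := {H : Set α // M.IsFlat H ∧ H ⊆ G}

/-- The maximal elements of `𝒢 ∩ [∅, F]`. -/
abbrev MaxBelow (𝒢 : Set (Set α)) (F : Set α) : Type :=
  {G : Set α // Maximal (fun H => H ∈ 𝒢 ∧ H ⊆ F) G}

/-- `𝒢` is a building set on the lattice of flats of the (loopless) matroid `M`: it consists of
nonempty flats, and for every nonempty flat `F` the map `(H_G)_G ↦ ⋁ H_G` (the join of flats is the
closure of the union) is an isomorphism of posets from the product of the intervals `[∅, G]`, with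
`G` running over the maximal elements of `𝒢 ∩ [∅, F]`, to `[∅, F]`. -/
def IsBuildingSet (M : Matroid α) (𝒢 : Set (Set α)) : Prop :=
  (∀ G ∈ 𝒢, M.IsFlat G ∧ G.Nonempty) ∧
  ∀ F : Set α, M.IsFlat F → F.Nonempty →
    ∃ φ : (∀ G : MaxBelow 𝒢 F, Below M G.1) ≃o Below M F,
      ∀ h, (φ h).1 = M.closure (⋃ G, (h G).1)

/-- A subset `S` of the building set `{G i}` is nested: the join of any `t ≥ 2` pairwise
incomparable elements of `S` is not in the building set. -/
def IsNested (M : Matroid α) (G : ι → Set α) (S : Finset ι) : Prop :=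
  ∀ T ⊆ S, 2 ≤ T.card → (∀ i ∈ T, ∀ j ∈ T, i ≠ j → ¬ G i ⊆ G j) →
    M.closure (⋃ i ∈ T, G i) ∉ Set.range G

/-- The atoms of the lattice of flats of the loopless matroid `M`. -/
def IsAtomFlat (M : Matroid α) (a : Set α) : Prop :=
  M.IsFlat a ∧ a.Nonempty ∧ ∀ F : Set α, M.IsFlat F → F.Nonempty → F ⊆ a → F = a

open Classical in
/-- The ideal of the Chow ring `D(M, 𝒢)`, with `𝒢 = {G i}`: it is generated by the products
`∏_{i ∈ S} x_i` for `S` not nested and the sums `∑_{G i ⊇ a} x_i` for the atoms `a`. -/
def chowIdeal [Fintype ι] (M : Matroid α) (G : ι → Set α) : Ideal (MvPolynomial ι ℚ) :=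
  Ideal.span ({p | ∃ S : Finset ι, ¬ IsNested M G S ∧ p = ∏ i ∈ S, X i} ∪
    {p | ∃ a : Set α, IsAtomFlat M a ∧ p = ∑ i, if a ⊆ G i then X i else 0})

/-- The Chow ring `D(M, 𝒢)`. -/
abbrev ChowRing [Fintype ι] (M : Matroid α) (G : ι → Set α) : Type :=
  MvPolynomial ι ℚ ⧸ chowIdeal M G

/-- The homogeneous part `D^k(M, 𝒢)`: the classes of the homogeneous polynomials of degree `k`. -/
def chowPiece [Fintype ι] (M : Matroid α) (G : ι → Set α) (k : ℕ) :
    Submodule ℚ (ChowRing M G) :=
  (homogeneousSubmodule ι ℚ k).map (Ideal.Quotient.mkₐ ℚ (chowIdeal M G)).toLinearMap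

/-- The standard graded algebra `A` over `ℚ` with degree-one part `A₁` is Koszul: `A/A₊`, where
`A₊` is the ideal generated by `A₁`, has a linear (hence minimal) graded free resolution
`⋯ → A(-2)^{b 2} → A(-1)^{b 1} → A → A/A₊ → 0`, that is, one in which the maps are given by matrices
with entries in `A₁` (acting on row vectors). -/
def IsKoszul {A : Type} [CommRing A] (A₁ : Set A) : Prop :=
  ∃ (b : ℕ → ℕ) (d : ∀ i, Matrix (Fin (b (i + 1))) (Fin (b i)) A), b 0 = 1 ∧
    (∀ i p q, d i p q ∈ A₁) ∧
    (∀ c : Fin (b 0) → A, c ∈ LinearMap.range (d 0).vecMulLinear ↔ ∀ q, c q ∈ Ideal.span A₁) ∧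
    ∀ i, LinearMap.range (d (i + 1)).vecMulLinear = LinearMap.ker (d i).vecMulLinear

open Pool.Agent.V11118.KZ Pool.Agent.V11118.KZ.Data

/-- the free matroid on seven elements -/
abbrev M7 : Matroid (Fin 7) := Matroid.freeOn Set.univ

theorem closure_M7 (X : Set (Fin 7)) : M7.closure X = X := by
  rw [Matroid.freeOn_closure_eq, Set.inter_univ]

theorem flat_M7 (X : Set (Fin 7)) : M7.IsFlat X := by
  rw [← closure_M7 X]
  exact Matroid.isFlat_closure _

theorem loopless_M7 : M7.Loopless := by
  rw [Matroid.loopless_iff_forall_not_isLoop]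
  intro e _
  exact Matroid.freeOn_not_isLoop _ e

theorem building : IsBuildingSet M7 (Set.range GG) := by
  refine ⟨?_, ?_⟩
  · rintro G ⟨v, rfl⟩
    exact ⟨flat_M7 _, GG_nonempty v⟩
  · intro F _ _
    have hdisj : ∀ G G' : MaxBelow (Set.range GG) F, (G.1 ∩ G'.1).Nonempty → G = G' := by
      rintro ⟨G, hG⟩ ⟨G', hG'⟩ hne
      obtain ⟨⟨u, hu⟩, hGF⟩ := hG.prop
      obtain ⟨⟨v, hv⟩, hGF'⟩ := hG'.prop
      have hne' : (G ∩ G').Nonempty := hne
      have : ∃ w, GG w = G ∪ G' := by
        rw [← hu, ← hv] at hne' ⊢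
        exact GG_union hne'
      obtain ⟨w, hw⟩ := this
      have hP : (G ∪ G') ∈ Set.range GG ∧ G ∪ G' ⊆ F := ⟨⟨w, hw⟩, Set.union_subset hGF hGF'⟩
      have h1 : G ∪ G' ⊆ G := hG.le_of_ge hP Set.subset_union_left
      have h2 : G ∪ G' ⊆ G' := hG'.le_of_ge hP Set.subset_union_right
      apply Subtype.ext
      exact le_antisymm (Set.subset_union_left.trans h2) (Set.subset_union_right.trans h1)
    have hcov : ∀ e ∈ F, ∃ G : MaxBelow (Set.range GG) F, e ∈ G.1 := by
      intro e he
      obtain ⟨w, hw⟩ := GG_single e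
      have hP : ({e} : Set (Fin 7)) ∈ {H | H ∈ Set.range GG ∧ H ⊆ F} :=
        ⟨⟨w, hw⟩, Set.singleton_subset_iff.2 he⟩
      obtain ⟨G, hle, hG⟩ := (Set.toFinite {H | H ∈ Set.range GG ∧ H ⊆ F}).exists_le_maximal hP
      exact ⟨⟨G, hG⟩, hle rfl⟩
    refine ⟨{ toFun := fun h => ⟨⋃ G, (h G).1, flat_M7 _, ?_⟩
              invFun := fun K => fun G => ⟨K.1 ∩ G.1, flat_M7 _, Set.inter_subset_right⟩
              left_inv := ?_
              right_inv := ?_
              map_rel_iff' := ?_ }, ?_⟩
    · rw [Set.iUnion_subset_iff]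
      intro G
      exact (h G).2.2.trans G.2.prop.2
    · intro h
      funext G
      apply Subtype.ext
      apply Set.ext
      intro e
      constructor
      · rintro ⟨he, heG⟩
        obtain ⟨G', heG'⟩ := Set.mem_iUnion.1 he
        have : G' = G := hdisj G' G ⟨e, (h G').2.2 heG', heG⟩
        rw [← this]
        exact heG'
      · intro he
        exact ⟨Set.mem_iUnion.2 ⟨G, he⟩, (h G).2.2 he⟩
    · intro K
      apply Subtype.ext
      apply Set.ext
      intro e
      constructor
      · intro he
        obtain ⟨G, he'⟩ := Set.mem_iUnion.1 he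
        exact he'.1
      · intro he
        obtain ⟨G, hG⟩ := hcov e (K.2.2 he)
        exact Set.mem_iUnion.2 ⟨G, he, hG⟩
    · intro h h'
      constructor
      · intro hle G e he
        have h1 : e ∈ ⋃ G, (h' G).1 := hle (Set.mem_iUnion.2 ⟨G, he⟩)
        obtain ⟨G', heG'⟩ := Set.mem_iUnion.1 h1
        have : G' = G := hdisj G' G ⟨e, (h' G').2.2 heG', (h G).2.2 he⟩
        rw [← this]
        exact heG'
      · intro hle e he
        obtain ⟨G, he'⟩ := Set.mem_iUnion.1 he
        exact Set.mem_iUnion.2 ⟨G, hle G he'⟩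
    · intro h
      rw [closure_M7]
      rfl

theorem atom_M7 (a : Set (Fin 7)) : IsAtomFlat M7 a ↔ ∃ e, a = {e} := by
  constructor
  · rintro ⟨_, ⟨e, he⟩, h⟩
    exact ⟨e, (h {e} (flat_M7 _) (Set.singleton_nonempty e) (Set.singleton_subset_iff.2 he)).symm⟩
  · rintro ⟨e, rfl⟩
    refine ⟨flat_M7 _, Set.singleton_nonempty e, ?_⟩
    intro F _ hne hF
    exact (Set.subset_singleton_iff_eq.1 hF).resolve_left hne.ne_empty

theorem adjB_self (v : Fin 18) : adj v v := by
  unfold adj adjB
  simp

theorem chow_eq : chowIdeal M7 GG = J adj ee Set.univ := by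
  classical
  apply le_antisymm
  · unfold chowIdeal
    rw [Ideal.span_le]
    rintro p (⟨S, hS, rfl⟩ | ⟨a, ha, rfl⟩)
    · have : ∃ u ∈ S, ∃ w ∈ S, ¬ adj u w := by
        by_contra hcon
        push Not at hcon
        apply hS
        intro T hT h2 hinc
        rw [closure_M7]
        exact union_notMem T h2 (fun u hu v hv => hcon u (hT hu) v (hT hv)) hinc
      obtain ⟨u, hu, w, hw, huw⟩ := this
      have hne : w ≠ u := by
        rintro rfl
        exact huw (adjB_self w)
      have hw' : w ∈ S.erase u := Finset.mem_erase.2 ⟨hne, hw⟩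
      rw [← Finset.mul_prod_erase S _ hu, ← Finset.mul_prod_erase (S.erase u) _ hw', ← mul_assoc]
      exact Ideal.mul_mem_right _ _ (XX_mem_J adj ee huw)
    · obtain ⟨e, rfl⟩ := (atom_M7 a).1 ha
      refine Ideal.mem_sup_right (Ideal.subset_span ⟨e, ?_⟩)
      unfold theta
      apply Finset.sum_congr rfl
      intro i _
      have h : ({e} : Set (Fin 7)) ⊆ GG i ↔ (gm i).testBit e = true := by
        rw [Set.singleton_subset_iff]
        rfl
      simp only [ee, h]
      split_ifs <;> simp
  · unfold J mono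
    refine sup_le (Ideal.span_le.2 ?_) (Ideal.span_le.2 ?_)
    · rintro p (⟨u, w, huw, rfl⟩ | ⟨v, hv, _⟩)
      · have hne : u ≠ w := by
          rintro rfl
          exact huw (adjB_self u)
        refine Ideal.subset_span (Or.inl ⟨{u, w}, ?_, ?_⟩)
        · intro hn
          have hf : adjB (gm u) (gm w) = false := by
            rw [← Bool.not_eq_true]
            exact huw
          obtain ⟨⟨e, he1, he2⟩, ⟨e', he1', he2'⟩, x, hx⟩ := chk_nadj u w hf
          have hc : ¬ GG u ⊆ GG w := fun h => by
            have : (gm w).testBit e = true := h he1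
            rw [he2] at this
            exact absurd this (by simp)
          have hc' : ¬ GG w ⊆ GG u := fun h => by
            have : (gm u).testBit e' = true := h he1'
            rw [he2'] at this
            exact absurd this (by simp)
          apply hn {u, w} (Finset.Subset.refl _)
          · rw [Finset.card_pair hne]
          · intro i hi j hj hij
            simp only [Finset.mem_insert, Finset.mem_singleton] at hi hj
            rcases hi with rfl | rfl <;> rcases hj with rfl | rfl
            · exact absurd rfl hij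
            · exact hc
            · exact hc'
            · exact absurd rfl hij
          · rw [closure_M7]
            refine ⟨x, ?_⟩
            ext y
            simp only [Finset.mem_insert, Finset.mem_singleton, Set.mem_iUnion, exists_prop,
              exists_eq_or_imp, exists_eq_left]
            show (gm x).testBit y = true ↔ (gm u).testBit y = true ∨ (gm w).testBit y = true
            rw [hx, Nat.testBit_or, Bool.or_eq_true]
        · rw [Finset.prod_pair hne]
      · exact absurd (Set.mem_univ v) hv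
    · rintro p ⟨e, rfl⟩
      refine Ideal.subset_span (Or.inr ⟨{e}, (atom_M7 _).2 ⟨e, rfl⟩, ?_⟩)
      unfold theta
      apply Finset.sum_congr rfl
      intro i _
      have h : ({e} : Set (Fin 7)) ⊆ GG i ↔ (gm i).testBit e = true := by
        rw [Set.singleton_subset_iff]
        rfl
      simp only [ee, h]
      split_ifs <;> simp

/-- **Theorem.** There are a loopless matroid `M` (on seven elements) and a building set
`𝒢 = {G i}` (of eighteen flats) such that the Chow ring `D(M, 𝒢)` is Koszul, its Hilbert series is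
`1 + 11x + 39x² + 59x³ + 39x⁴ + 11x⁵ + x⁶`, and this polynomial has a non-real zero. -/
theorem result : ∃ (M : Matroid (Fin 7)) (G : Fin 18 → Set (Fin 7)), M.Loopless ∧
    Function.Injective G ∧ IsBuildingSet M (Set.range G) ∧
    IsKoszul (chowPiece M G 1 : Set (ChowRing M G)) ∧
    (∀ k, Module.finrank ℚ (chowPiece M G k) = [1, 11, 39, 59, 39, 11, 1].getD k 0) ∧
    (∀ k, 7 ≤ k → chowPiece M G k = ⊥) ∧
    ∃ z : ℂ, z.im ≠ 0 ∧
      ∑ k ∈ Finset.range 7, (Module.finrank ℚ (chowPiece M G k) : ℂ) * z ^ k = 0 := by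
  have hrank : ∀ k, Module.finrank ℚ (chowPiece M7 GG k) = [1, 11, 39, 59, 39, 11, 1].getD k 0 :=
    fun k => finrank_map_mk chow_eq k
  refine ⟨M7, GG, loopless_M7, GG_inj, building, ?_, hrank, ?_, ?_⟩
  · obtain ⟨b, d, h0, h1, h2, h3⟩ := resolution_data chow_eq
    have hset : (chowPiece M7 GG 1 : Set (ChowRing M7 GG)) = linForms (chowIdeal M7 GG) := rfl
    rw [hset]
    exact ⟨b, d, h0, h1, h2, h3⟩
  · intro k hk
    have hfin : Module.Finite ℚ (chowPiece M7 GG k) := by
      have := finE (V := Fin 18) k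
      exact Module.Finite.map _ _
    apply Submodule.finrank_eq_zero.1
    rw [hrank]
    exact List.getD_eq_default _ _ (by simpa using hk)
  · obtain ⟨z, hz, hz0⟩ := exists_nonreal
    refine ⟨z, hz, ?_⟩
    rw [← hz0]
    simp only [Finset.sum_range_succ, Finset.sum_range_zero, hrank]
    norm_num

end

end Pool.Agent.Results.MP_0b1547_co.KoszulNotRealRooted
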